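import Mathlib
import Pool.Agent.H807R2.Dav1

/-!
# Exponential sums with the product of several variables and functions of fewer variables

The inequality of Cauchy and Schwarz, once for every variable but one.
-/

set_option autoImplicit false

namespace Pool.Agent.V5helper26.ML

open Finset
open Pool.Agent.H807R2.Dav (ee norm_ee ee_add ee_zero KK KK_nonneg KK_neg KK_le geo_bound)

/-- the box -/
def V (k X : ℕ) : Finset (Fin k → ℕ) := Fintype.piFinset (fun _ => Icc 1 X)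

lemma mem_V {k X : ℕ} {a : Fin k → ℕ} : a ∈ V k X ↔ ∀ i, 1 ≤ a i ∧ a i ≤ X := by
  unfold V
  rw [Fintype.mem_piFinset]
  simp only [mem_Icc]

lemma card_V (k X : ℕ) : (V k X).card = X ^ k := by
  unfold V
  rw [Fintype.card_piFinset]
  simp

lemma avg {k X : ℕ} {M : Type*} [AddCommMonoid M] (j : Fin k) (F : (Fin k → ℕ) → M) :
    ∑ a ∈ V k X, ∑ x ∈ Icc 1 X, F (Function.update a j x) = X • ∑ a ∈ V k X, F a := by
  have h1 : ∑ p ∈ V k X ×ˢ Icc 1 X, F (Function.update p.1 j p.2) =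
      ∑ p ∈ V k X ×ˢ Icc 1 X, F p.1 := by
    refine sum_nbij' (fun p => (Function.update p.1 j p.2, p.1 j))
      (fun p => (Function.update p.1 j p.2, p.1 j)) ?_ ?_ ?_ ?_ ?_
    · rintro ⟨a, x⟩ hp
      rw [mem_product, mem_V, mem_Icc] at hp
      rw [mem_product, mem_V, mem_Icc]
      refine ⟨fun i => ?_, hp.1 j⟩
      by_cases hi : i = j
      · subst hi
        simp only [Function.update_self]
        exact hp.2
      · simp only [Function.update_of_ne hi]
        exact hp.1 i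
    · rintro ⟨a, x⟩ hp
      rw [mem_product, mem_V, mem_Icc] at hp
      rw [mem_product, mem_V, mem_Icc]
      refine ⟨fun i => ?_, hp.1 j⟩
      by_cases hi : i = j
      · subst hi
        simp only [Function.update_self]
        exact hp.2
      · simp only [Function.update_of_ne hi]
        exact hp.1 i
    · rintro ⟨a, x⟩ _
      simp
    · rintro ⟨a, x⟩ _
      simp
    · rintro ⟨a, x⟩ _
      rfl
  rw [sum_product, sum_product] at h1
  simp only at h1
  rw [h1, smul_sum]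
  refine sum_congr rfl fun a _ => ?_
  rw [sum_const, Nat.card_Icc, Nat.add_sub_cancel]

/-- the iterated means of the geometric sums -/
noncomputable def Tm (X : ℕ) : ℕ → ℝ → ℝ
  | 0, φ => KK X φ / X
  | (m + 1), φ => (∑ x ∈ Icc 1 X, ∑ y ∈ Icc 1 X, Tm X m (φ * ((x : ℝ) - y))) / (X : ℝ) ^ 2

lemma Tm_nonneg (X m : ℕ) (φ : ℝ) : 0 ≤ Tm X m φ := by
  induction m generalizing φ with
  | zero => exact div_nonneg (KK_nonneg (Nat.cast_nonneg _) _) (Nat.cast_nonneg _)
  | succ m ih =>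
    unfold Tm
    exact div_nonneg (sum_nonneg fun x _ => sum_nonneg fun y _ => ih _) (by positivity)

lemma conj_ee (x : ℝ) : (starRingEnd ℂ) (ee x) = ee (-x) := by
  unfold ee
  rw [← Complex.exp_conj]
  congr 1
  simp only [map_mul, Complex.conj_I, Complex.conj_ofReal]
  have : (starRingEnd ℂ) 2 = 2 := Complex.conj_ofNat 2
  rw [this]
  push_cast
  ring

theorem box (X k : ℕ) (hX : 1 ≤ X) : ∀ (m : ℕ) (I : Finset (Fin k)), I.card = m + 1 →
    ∀ (φ : ℝ) (b : Fin k → (Fin k → ℕ) → ℂ), (∀ i ∈ I, ∀ a, ‖b i a‖ ≤ 1) →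
    (∀ i ∈ I, ∀ a x, b i (Function.update a i x) = b i a) →
    (‖∑ a ∈ V k X, ee (φ * ∏ i ∈ I, (a i : ℝ)) * ∏ i ∈ I, b i a‖ / (X : ℝ) ^ k) ^ 2 ^ m ≤
      Tm X m φ := by
  have hX0 : (0 : ℝ) < X := by exact_mod_cast hX
  have hXk : (0 : ℝ) < (X : ℝ) ^ k := by positivity
  intro m
  induction m with
  | zero =>
    intro I hI φ b hb1 hb2
    rw [zero_add, card_eq_one] at hI
    obtain ⟨i, rfl⟩ := hI
    simp only [pow_zero, pow_one, prod_singleton]
    have h1 := avg (X := X) i (fun a => ee (φ * (a i : ℝ)) * b i a)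
    have h2 : ∀ a : Fin k → ℕ, ∑ x ∈ Icc 1 X, ee (φ * ((Function.update a i x) i : ℝ)) *
        b i (Function.update a i x) = (∑ x ∈ Icc 1 X, ee (x * φ)) * b i a := by
      intro a
      rw [sum_mul]
      refine sum_congr rfl fun x _ => ?_
      rw [Function.update_self, hb2 i (mem_singleton_self i), mul_comm φ]
    have h3 : ‖∑ x ∈ Icc 1 X, ee (x * φ)‖ ≤ KK X φ := by
      have h4 : Icc 1 X = Ico 1 (X + 1) := by ext; simp [Nat.lt_succ_iff]
      rw [h4]
      exact geo_bound 1 (X + 1) (by omega) (by push_cast; linarith) φ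
    have h5 : (X : ℝ) * ‖∑ a ∈ V k X, ee (φ * (a i : ℝ)) * b i a‖ ≤ (X : ℝ) ^ k * KK X φ := by
      have h6 : (X : ℝ) * ‖∑ a ∈ V k X, ee (φ * (a i : ℝ)) * b i a‖ =
          ‖∑ a ∈ V k X, (∑ x ∈ Icc 1 X, ee (x * φ)) * b i a‖ := by
        rw [← sum_congr rfl fun a _ => h2 a, h1, nsmul_eq_mul, norm_mul]
        simp
      rw [h6]
      refine (norm_sum_le _ _).trans ?_
      calc ∑ a ∈ V k X, ‖(∑ x ∈ Icc 1 X, ee (x * φ)) * b i a‖ ≤ ∑ _a ∈ V k X, KK X φ := by
            refine sum_le_sum fun a _ => ?_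
            rw [norm_mul]
            calc _ ≤ KK X φ * 1 := mul_le_mul h3 (hb1 i (mem_singleton_self i) a) (norm_nonneg _)
                  (KK_nonneg hX0.le _)
              _ = _ := mul_one _
        _ = _ := by rw [sum_const, card_V, nsmul_eq_mul]; push_cast; rfl
    unfold Tm
    rw [div_le_div_iff₀ hXk hX0]
    linarith
  | succ m ih =>
    intro I hI φ b hb1 hb2
    obtain ⟨j, hj⟩ : I.Nonempty := by
      rw [← card_pos]
      omega
    set I' := I.erase j with hI'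
    have hI'c : I'.card = m + 1 := by
      rw [hI', card_erase_of_mem hj, hI]
      rfl
    have hjI' : j ∉ I' := notMem_erase j I
    have hins : insert j I' = I := insert_erase hj
    have hsub : ∀ i ∈ I', i ∈ I := fun i hi => mem_of_mem_erase hi
    have hne : ∀ i ∈ I', i ≠ j := fun i hi => ne_of_mem_erase hi
    set P : (Fin k → ℕ) → ℝ := fun a => ∏ i ∈ I', (a i : ℝ) with hP
    set F : (Fin k → ℕ) → ℂ := fun a => ee (φ * ∏ i ∈ I, (a i : ℝ)) * ∏ i ∈ I, b i a with hF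
    -- the inner sums
    set G : (Fin k → ℕ) → ℂ := fun a => ∑ x ∈ Icc 1 X, ee (φ * x * P a) *
      ∏ i ∈ I', b i (Function.update a j x) with hG
    have hPu : ∀ a x, P (Function.update a j x) = P a := by
      intro a x
      simp only [hP]
      refine prod_congr rfl fun i hi => ?_
      rw [Function.update_of_ne (hne i hi)]
    have hFu : ∀ a x, F (Function.update a j x) = b j a * (ee (φ * x * P a) *
        ∏ i ∈ I', b i (Function.update a j x)) := by
      intro a x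
      simp only [hF]
      rw [← hins, prod_insert hjI', prod_insert hjI', Function.update_self, hb2 j hj]
      have := hPu a x
      simp only [hP] at this
      rw [this]
      simp only [hP]
      rw [mul_assoc φ]
      ring
    have h1 : ∑ a ∈ V k X, b j a * G a = X • ∑ a ∈ V k X, F a := by
      rw [← avg j F]
      refine sum_congr rfl fun a _ => ?_
      simp only [hG]
      rw [mul_sum]
      exact sum_congr rfl fun x _ => (hFu a x).symm
    have h2 : (X : ℝ) * ‖∑ a ∈ V k X, F a‖ ≤ ∑ a ∈ V k X, ‖G a‖ := by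
      have h3 : (X : ℝ) * ‖∑ a ∈ V k X, F a‖ = ‖∑ a ∈ V k X, b j a * G a‖ := by
        rw [h1, nsmul_eq_mul, norm_mul]
        simp
      rw [h3]
      refine (norm_sum_le _ _).trans (sum_le_sum fun a _ => ?_)
      rw [norm_mul]
      calc _ ≤ 1 * ‖G a‖ := mul_le_mul_of_nonneg_right (hb1 j hj a) (norm_nonneg _)
        _ = _ := one_mul _
    -- the square
    set S : ℕ → ℕ → ℂ := fun x y => ∑ a ∈ V k X, ee ((φ * ((x : ℝ) - y)) * ∏ i ∈ I', (a i : ℝ)) *
      ∏ i ∈ I', (b i (Function.update a j x) * (starRingEnd ℂ) (b i (Function.update a j y))) with hS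
    have h4 : ((∑ a ∈ V k X, ‖G a‖ ^ 2 : ℝ) : ℂ) = ∑ x ∈ Icc 1 X, ∑ y ∈ Icc 1 X, S x y := by
      have h5 : ∀ a, ((‖G a‖ ^ 2 : ℝ) : ℂ) = ∑ x ∈ Icc 1 X, ∑ y ∈ Icc 1 X,
          ee ((φ * ((x : ℝ) - y)) * ∏ i ∈ I', (a i : ℝ)) *
          ∏ i ∈ I', (b i (Function.update a j x) *
            (starRingEnd ℂ) (b i (Function.update a j y))) := by
        intro a
        have h6 : ((‖G a‖ ^ 2 : ℝ) : ℂ) = G a * (starRingEnd ℂ) (G a) := by
          rw [Complex.mul_conj, Complex.normSq_eq_norm_sq]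
        rw [h6]
        simp only [hG]
        rw [map_sum, sum_mul_sum]
        refine sum_congr rfl fun x _ => sum_congr rfl fun y _ => ?_
        rw [map_mul, conj_ee, map_prod, prod_mul_distrib]
        have h7 : ee ((φ * ((x : ℝ) - y)) * ∏ i ∈ I', (a i : ℝ)) =
            ee (φ * x * P a) * ee (-(φ * y * P a)) := by
          rw [← ee_add]
          congr 1
          simp only [hP]
          ring
        rw [h7]
        ring
      rw [Complex.ofReal_sum, sum_congr rfl fun a _ => h5 a, sum_comm]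
      refine sum_congr rfl fun x _ => ?_
      rw [sum_comm]
    have h5 : ∑ a ∈ V k X, ‖G a‖ ^ 2 ≤ ∑ x ∈ Icc 1 X, ∑ y ∈ Icc 1 X, ‖S x y‖ := by
      have h6 : ∑ a ∈ V k X, ‖G a‖ ^ 2 = ‖((∑ a ∈ V k X, ‖G a‖ ^ 2 : ℝ) : ℂ)‖ := by
        rw [Complex.norm_real, Real.norm_of_nonneg (sum_nonneg fun _ _ => sq_nonneg _)]
      rw [h6, h4]
      exact (norm_sum_le _ _).trans (sum_le_sum fun x _ => norm_sum_le _ _)
    have h6 : (∑ a ∈ V k X, ‖G a‖) ^ 2 ≤ (X : ℝ) ^ k * ∑ a ∈ V k X, ‖G a‖ ^ 2 := by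
      have := sq_sum_le_card_mul_sum_sq (s := V k X) (f := fun a => ‖G a‖)
      rw [card_V] at this
      push_cast at this
      exact this
    have h7 : (‖∑ a ∈ V k X, F a‖ / (X : ℝ) ^ k) ^ 2 ≤
        ∑ p ∈ Icc 1 X ×ˢ Icc 1 X, (1 / (X : ℝ) ^ 2) * (‖S p.1 p.2‖ / (X : ℝ) ^ k) := by
      have h8 : ((X : ℝ) * ‖∑ a ∈ V k X, F a‖) ^ 2 ≤
          (X : ℝ) ^ k * ∑ x ∈ Icc 1 X, ∑ y ∈ Icc 1 X, ‖S x y‖ := by
        calc ((X : ℝ) * ‖∑ a ∈ V k X, F a‖) ^ 2 ≤ (∑ a ∈ V k X, ‖G a‖) ^ 2 :=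
              pow_le_pow_left₀ (by positivity) h2 2
          _ ≤ _ := h6
          _ ≤ _ := mul_le_mul_of_nonneg_left h5 hXk.le
      rw [← mul_sum, ← sum_div, sum_product, div_pow]
      rw [mul_div_assoc', one_div_mul_eq_div, div_div, div_le_div_iff₀ (by positivity) (by positivity)]
      have h9 := mul_le_mul_of_nonneg_right h8 hXk.le
      calc ‖∑ a ∈ V k X, F a‖ ^ 2 * ((X : ℝ) ^ 2 * (X : ℝ) ^ k) =
            ((X : ℝ) * ‖∑ a ∈ V k X, F a‖) ^ 2 * (X : ℝ) ^ k := by ring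
        _ ≤ _ := h9
        _ = _ := by ring
    have hrec : ∀ x y : ℕ, (‖S x y‖ / (X : ℝ) ^ k) ^ 2 ^ m ≤ Tm X m (φ * ((x : ℝ) - y)) := by
      intro x y
      have := ih I' hI'c (φ * ((x : ℝ) - y)) (fun i a => b i (Function.update a j x) *
        (starRingEnd ℂ) (b i (Function.update a j y))) (by
        intro i hi a
        rw [norm_mul, RCLike.norm_conj]
        exact mul_le_one₀ (hb1 i (hsub i hi) _) (norm_nonneg _) (hb1 i (hsub i hi) _)) (by
        intro i hi a z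
        have h8 : ∀ w, Function.update (Function.update a i z) j w =
            Function.update (Function.update a j w) i z := fun w =>
          Function.update_comm (hne i hi) z w a
        simp only [h8, hb2 i (hsub i hi)])
      exact this
    have hw : ∑ _p ∈ Icc 1 X ×ˢ Icc 1 X, (1 / (X : ℝ) ^ 2) = 1 := by
      rw [sum_const, card_product, Nat.card_Icc, Nat.add_sub_cancel, nsmul_eq_mul]
      push_cast
      field_simp
    calc (‖∑ a ∈ V k X, F a‖ / (X : ℝ) ^ k) ^ 2 ^ (m + 1) =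
          ((‖∑ a ∈ V k X, F a‖ / (X : ℝ) ^ k) ^ 2) ^ 2 ^ m := by
            rw [← pow_mul, pow_succ, mul_comm 2]
      _ ≤ (∑ p ∈ Icc 1 X ×ˢ Icc 1 X, (1 / (X : ℝ) ^ 2) * (‖S p.1 p.2‖ / (X : ℝ) ^ k)) ^ 2 ^ m :=
          pow_le_pow_left₀ (by positivity) h7 _
      _ ≤ ∑ p ∈ Icc 1 X ×ˢ Icc 1 X, (1 / (X : ℝ) ^ 2) * (‖S p.1 p.2‖ / (X : ℝ) ^ k) ^ 2 ^ m :=
          Real.pow_arith_mean_le_arith_mean_pow _ _ _ (fun _ _ => by positivity) hw
            (fun _ _ => by positivity) _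
      _ ≤ ∑ p ∈ Icc 1 X ×ˢ Icc 1 X, (1 / (X : ℝ) ^ 2) * Tm X m (φ * ((p.1 : ℝ) - p.2)) :=
          sum_le_sum fun p _ => mul_le_mul_of_nonneg_left (hrec _ _) (by positivity)
      _ = Tm X (m + 1) φ := by
          rw [← mul_sum, sum_product]
          simp only [Tm]
          ring

end Pool.Agent.V5helper26.ML
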