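import Mathlib
import Pool.Agent.V5helper26.ML.Box
import Pool.Agent.N852.Div

/-!
# The iterated means of the geometric sums, for frequencies not near to rational numbers
-/

set_option autoImplicit false

namespace Pool.Agent.V5helper26.ML

open Finset Filter Topology
open Pool.Agent.H807R2.Dav (ee norm_ee ee_add ee_zero KK KK_nonneg KK_neg KK_le geo_bound vino)

lemma Tm_neg (X m : ℕ) (φ : ℝ) : Tm X m (-φ) = Tm X m φ := by
  induction m generalizing φ with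
  | zero => unfold Tm; rw [KK_neg]
  | succ m ih =>
    unfold Tm
    congr 1
    refine sum_congr rfl fun x _ => sum_congr rfl fun y _ => ?_
    rw [neg_mul, ih]

lemma Tm_le (X m : ℕ) (hX : 1 ≤ X) (φ : ℝ) : Tm X m φ ≤ 3 := by
  have hX0 : (0 : ℝ) < X := by exact_mod_cast hX
  induction m generalizing φ with
  | zero =>
    unfold Tm
    rw [div_le_iff₀ hX0]
    exact KK_le hX0.le φ
  | succ m ih =>
    unfold Tm
    rw [div_le_iff₀ (by positivity)]
    calc ∑ x ∈ Icc 1 X, ∑ y ∈ Icc 1 X, Tm X m (φ * ((x : ℝ) - y)) ≤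
          ∑ _x ∈ Icc 1 X, ∑ _y ∈ Icc 1 X, (3 : ℝ) :=
          sum_le_sum fun x _ => sum_le_sum fun y _ => ih _
      _ = 3 * (X : ℝ) ^ 2 := by
          simp only [sum_const, Nat.card_Icc, Nat.add_sub_cancel, nsmul_eq_mul]
          ring

/-- one of the differences -/
lemma step_row (X m : ℕ) (hX : 1 ≤ X) (φ : ℝ) (x : ℕ) (hx : x ∈ Icc 1 X) :
    ∑ y ∈ Icc 1 X, Tm X m (φ * ((x : ℝ) - y)) ≤ 3 + 2 * ∑ d ∈ Icc 1 X, Tm X m (φ * d) := by
  classical
  rw [mem_Icc] at hx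
  have hsplit : Icc 1 X = insert x ((Icc 1 X).filter (fun y => y < x) ∪
      (Icc 1 X).filter (fun y => x < y)) := by
    ext y
    simp only [mem_insert, mem_union, mem_filter, mem_Icc]
    omega
  have h1 : ∑ y ∈ (Icc 1 X).filter (fun y => y < x), Tm X m (φ * ((x : ℝ) - y)) ≤
      ∑ d ∈ Icc 1 X, Tm X m (φ * d) := by
    have h2 : ∑ y ∈ (Icc 1 X).filter (fun y => y < x), Tm X m (φ * ((x : ℝ) - y)) =
        ∑ d ∈ ((Icc 1 X).filter (fun y => y < x)).image (fun y => x - y), Tm X m (φ * d) := by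
      rw [sum_image]
      · refine sum_congr rfl fun y hy => ?_
        rw [mem_filter] at hy
        rw [Nat.cast_sub hy.2.le]
      · intro y hy z hz hyz
        simp only [coe_filter, mem_Icc, Set.mem_setOf_eq] at hy hz
        simp only at hyz
        omega
    rw [h2]
    apply sum_le_sum_of_subset_of_nonneg
    · intro d hd
      rw [mem_image] at hd
      obtain ⟨y, hy, rfl⟩ := hd
      rw [mem_filter, mem_Icc] at hy
      rw [mem_Icc]
      omega
    · intro d _ _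
      exact Tm_nonneg _ _ _
  have h2 : ∑ y ∈ (Icc 1 X).filter (fun y => x < y), Tm X m (φ * ((x : ℝ) - y)) ≤
      ∑ d ∈ Icc 1 X, Tm X m (φ * d) := by
    have h2 : ∑ y ∈ (Icc 1 X).filter (fun y => x < y), Tm X m (φ * ((x : ℝ) - y)) =
        ∑ d ∈ ((Icc 1 X).filter (fun y => x < y)).image (fun y => y - x), Tm X m (φ * d) := by
      rw [sum_image]
      · refine sum_congr rfl fun y hy => ?_
        rw [mem_filter] at hy
        rw [Nat.cast_sub hy.2.le, ← Tm_neg]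
        congr 1
        ring
      · intro y hy z hz hyz
        simp only [coe_filter, mem_Icc, Set.mem_setOf_eq] at hy hz
        simp only at hyz
        omega
    rw [h2]
    apply sum_le_sum_of_subset_of_nonneg
    · intro d hd
      rw [mem_image] at hd
      obtain ⟨y, hy, rfl⟩ := hd
      rw [mem_filter, mem_Icc] at hy
      rw [mem_Icc]
      omega
    · intro d _ _
      exact Tm_nonneg _ _ _
  have h3 : ∑ y ∈ Icc 1 X, Tm X m (φ * ((x : ℝ) - y)) = Tm X m (φ * ((x : ℝ) - x)) +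
      (∑ y ∈ (Icc 1 X).filter (fun y => y < x), Tm X m (φ * ((x : ℝ) - y)) +
      ∑ y ∈ (Icc 1 X).filter (fun y => x < y), Tm X m (φ * ((x : ℝ) - y))) := by
    conv_lhs => rw [hsplit]
    rw [sum_insert, sum_union]
    · rw [disjoint_left]
      intro y hy hy'
      rw [mem_filter] at hy hy'
      omega
    · simp only [mem_union, mem_filter]
      omega
  rw [h3]
  have := Tm_le X m hX (φ * ((x : ℝ) - x))
  linarith

/-- sums over products of two variables -/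
lemma mul_sum_div (A B : ℕ) (f : ℕ → ℝ) (hf : ∀ n, 0 ≤ f n) (D : ℝ)
    (hD : ∀ n ∈ Icc 1 (A * B), (n.divisors.card : ℝ) ≤ D) :
    ∑ d ∈ Icc 1 A, ∑ n ∈ Icc 1 B, f (d * n) ≤ D * ∑ n ∈ Icc 1 (A * B), f n := by
  classical
  have hmaps : ∀ p ∈ Icc 1 A ×ˢ Icc 1 B, p.1 * p.2 ∈ Icc 1 (A * B) := by
    rintro ⟨d, n⟩ hp
    simp only [mem_product, mem_Icc] at hp ⊢
    exact ⟨Nat.mul_pos hp.1.1 hp.2.1, Nat.mul_le_mul hp.1.2 hp.2.2⟩
  rw [← sum_product (s := Icc 1 A) (t := Icc 1 B) (f := fun p : ℕ × ℕ => f (p.1 * p.2)),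
    ← sum_fiberwise_of_maps_to hmaps, mul_sum]
  refine sum_le_sum fun N hN => ?_
  have h1 : ∑ p ∈ (Icc 1 A ×ˢ Icc 1 B).filter (fun p => p.1 * p.2 = N), f (p.1 * p.2) =
      (((Icc 1 A ×ˢ Icc 1 B).filter (fun p => p.1 * p.2 = N)).card : ℝ) * f N := by
    rw [← nsmul_eq_mul, ← sum_const]
    refine sum_congr rfl fun p hp => ?_
    rw [mem_filter] at hp
    rw [hp.2]
  rw [h1]
  refine mul_le_mul_of_nonneg_right (le_trans ?_ (hD N hN)) (hf N)
  norm_cast
  apply card_le_card_of_injOn (fun p => p.1)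
  · rintro ⟨d, n⟩ hp
    simp only [coe_filter, mem_product, mem_Icc, Set.mem_setOf_eq] at hp
    simp only [mem_coe, Nat.mem_divisors]
    refine ⟨⟨n, hp.2.symm⟩, ?_⟩
    rw [mem_Icc] at hN
    omega
  · rintro ⟨d, n⟩ hp ⟨d', n'⟩ hp' h
    simp only [coe_filter, mem_product, mem_Icc, Set.mem_setOf_eq] at hp hp'
    simp only at h
    subst h
    have h2 : d * n = d * n' := hp.2.trans hp'.2.symm
    have h3 : n = n' := Nat.eq_of_mul_eq_mul_left (by omega) h2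
    rw [h3]

theorem unroll : ∀ (m : ℕ) (ε : ℝ), 0 < ε → ∃ C : ℝ, 1 ≤ C ∧ ∀ X : ℕ, 1 ≤ X → ∀ φ : ℝ,
    Tm X m φ ≤ C * (X : ℝ) ^ ε * (1 / X + (∑ n ∈ Icc 1 (X ^ m), Tm X 0 (φ * n)) / (X : ℝ) ^ m) := by
  intro m
  induction m with
  | zero =>
    intro ε hε
    refine ⟨1, le_rfl, fun X hX φ => ?_⟩
    have hX1 : (1 : ℝ) ≤ X := by exact_mod_cast hX
    have hX0 : (0 : ℝ) < X := by linarith
    have h1 : (1 : ℝ) ≤ (X : ℝ) ^ ε := Real.one_le_rpow hX1 hε.le
    have h2 := Tm_nonneg X 0 φ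
    simp only [pow_zero, Icc_self, sum_singleton, Nat.cast_one, mul_one, div_one, one_mul]
    calc Tm X 0 φ = 1 * (0 + Tm X 0 φ) := by ring
      _ ≤ _ := by
        apply mul_le_mul h1 _ (by linarith) (by positivity)
        have : (0 : ℝ) ≤ 1 / X := by positivity
        linarith
  | succ m ih =>
    intro ε hε
    obtain ⟨C, hC1, hC⟩ := ih (ε / 2) (by positivity)
    obtain ⟨D, hD0, hD⟩ := Pool.Agent.N852.divisor_bound (ε / (2 * (m + 1))) (by positivity)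
    refine ⟨3 + 2 * C + 2 * C * D, by nlinarith, fun X hX φ => ?_⟩
    have hX1 : (1 : ℝ) ≤ X := by exact_mod_cast hX
    have hX0 : (0 : ℝ) < X := by linarith
    have hXε : (1 : ℝ) ≤ (X : ℝ) ^ ε := Real.one_le_rpow hX1 hε.le
    have hXε2 : (X : ℝ) ^ (ε / 2) ≤ (X : ℝ) ^ ε := Real.rpow_le_rpow_of_exponent_le hX1 (by linarith)
    set Sg : ℝ := ∑ n ∈ Icc 1 (X ^ (m + 1)), Tm X 0 (φ * n) with hSg
    have hSg0 : 0 ≤ Sg := sum_nonneg fun _ _ => Tm_nonneg _ _ _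
    have h1 : Tm X (m + 1) φ ≤ 3 / X + 2 / X * ∑ d ∈ Icc 1 X, Tm X m (φ * d) := by
      have h2 : ∑ x ∈ Icc 1 X, ∑ y ∈ Icc 1 X, Tm X m (φ * ((x : ℝ) - y)) ≤
          X * (3 + 2 * ∑ d ∈ Icc 1 X, Tm X m (φ * d)) := by
        calc _ ≤ ∑ _x ∈ Icc 1 X, (3 + 2 * ∑ d ∈ Icc 1 X, Tm X m (φ * d)) :=
              sum_le_sum fun x hx => step_row X m hX φ x hx
          _ = _ := by rw [sum_const, Nat.card_Icc, Nat.add_sub_cancel, nsmul_eq_mul]
      have h3 : Tm X (m + 1) φ =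
          (∑ x ∈ Icc 1 X, ∑ y ∈ Icc 1 X, Tm X m (φ * ((x : ℝ) - y))) / (X : ℝ) ^ 2 := rfl
      rw [h3, div_le_iff₀ (by positivity)]
      refine h2.trans (le_of_eq ?_)
      field_simp
    have h2 : ∑ d ∈ Icc 1 X, Tm X m (φ * d) ≤
        C * (X : ℝ) ^ (ε / 2) * (1 + D * (X : ℝ) ^ (ε / 2) * Sg / (X : ℝ) ^ m) := by
      have h3 : ∑ d ∈ Icc 1 X, ∑ n ∈ Icc 1 (X ^ m), Tm X 0 (φ * ((d * n : ℕ) : ℝ)) ≤
          (D * (X : ℝ) ^ (ε / 2)) * Sg := by
        have h4 := mul_sum_div X (X ^ m) (fun n => Tm X 0 (φ * n)) (fun n => Tm_nonneg _ _ _)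
          (D * (X : ℝ) ^ (ε / 2)) (by
          intro n hn
          rw [mem_Icc] at hn
          refine (hD n (by omega)).trans (mul_le_mul_of_nonneg_left ?_ hD0.le)
          have h5 : (n : ℝ) ≤ (X : ℝ) ^ ((m : ℝ) + 1) := by
            have : (X : ℝ) ^ ((m : ℝ) + 1) = ((X * X ^ m : ℕ) : ℝ) := by
              rw [Real.rpow_add hX0, Real.rpow_one, Real.rpow_natCast]
              push_cast
              ring
            rw [this]
            exact_mod_cast hn.2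
          calc (n : ℝ) ^ (ε / (2 * (m + 1))) ≤ ((X : ℝ) ^ ((m : ℝ) + 1)) ^ (ε / (2 * (m + 1))) :=
                Real.rpow_le_rpow (Nat.cast_nonneg _) h5 (by positivity)
            _ = (X : ℝ) ^ (ε / 2) := by
                rw [← Real.rpow_mul hX0.le]
                congr 1
                field_simp)
        have h5 : X * X ^ m = X ^ (m + 1) := by ring
        rw [h5] at h4
        exact h4
      calc ∑ d ∈ Icc 1 X, Tm X m (φ * d) ≤ ∑ d ∈ Icc 1 X, C * (X : ℝ) ^ (ε / 2) *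
            (1 / X + (∑ n ∈ Icc 1 (X ^ m), Tm X 0 (φ * d * n)) / (X : ℝ) ^ m) :=
            sum_le_sum fun d _ => hC X hX (φ * d)
        _ = C * (X : ℝ) ^ (ε / 2) * (1 + (∑ d ∈ Icc 1 X, ∑ n ∈ Icc 1 (X ^ m),
            Tm X 0 (φ * ((d * n : ℕ) : ℝ))) / (X : ℝ) ^ m) := by
            rw [← mul_sum, sum_add_distrib, sum_const, Nat.card_Icc, Nat.add_sub_cancel,
              nsmul_eq_mul, ← sum_div]
            congr 2
            · field_simp
            · congr 1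
              refine sum_congr rfl fun d _ => sum_congr rfl fun n _ => ?_
              push_cast
              rw [mul_assoc]
        _ ≤ _ := by
            apply mul_le_mul_of_nonneg_left _ (by positivity)
            have := div_le_div_of_nonneg_right h3 (by positivity : (0 : ℝ) ≤ (X : ℝ) ^ m)
            linarith
    have h3 : (X : ℝ) ^ (ε / 2) * (X : ℝ) ^ (ε / 2) = (X : ℝ) ^ ε := by
      rw [← Real.rpow_add hX0]
      congr 1
      ring
    refine h1.trans ?_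
    have h4 : 2 / (X : ℝ) * ∑ d ∈ Icc 1 X, Tm X m (φ * d) ≤
        2 / X * (C * (X : ℝ) ^ (ε / 2) * (1 + D * (X : ℝ) ^ (ε / 2) * Sg / (X : ℝ) ^ m)) :=
      mul_le_mul_of_nonneg_left h2 (by positivity)
    have h5 : 2 / (X : ℝ) * (C * (X : ℝ) ^ (ε / 2) * (1 + D * (X : ℝ) ^ (ε / 2) * Sg / (X : ℝ) ^ m)) =
        2 * C * (X : ℝ) ^ (ε / 2) * (1 / X) + 2 * C * D * (X : ℝ) ^ ε * (Sg / (X : ℝ) ^ (m + 1)) := by
      rw [← h3, pow_succ]
      field_simp
    rw [h5] at h4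
    have h6 : 2 * C * (X : ℝ) ^ (ε / 2) * (1 / X) ≤ 2 * C * (X : ℝ) ^ ε * (1 / X) := by
      gcongr
    have h7 : 3 / (X : ℝ) ≤ 3 * (X : ℝ) ^ ε * (1 / X) := by
      have : 3 / (X : ℝ) = 3 * 1 * (1 / X) := by ring
      rw [this]
      gcongr
    have h8 : 0 ≤ (X : ℝ) ^ ε * (1 / X) := by positivity
    have h9 : 0 ≤ (X : ℝ) ^ ε * (Sg / (X : ℝ) ^ (m + 1)) := by positivity
    have h10 : 0 ≤ 2 * C * D * ((X : ℝ) ^ ε * (1 / X)) := by positivity
    have h11 : 0 ≤ (3 + 2 * C) * ((X : ℝ) ^ ε * (Sg / (X : ℝ) ^ (m + 1))) := by positivity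
    calc 3 / (X : ℝ) + 2 / X * ∑ d ∈ Icc 1 X, Tm X m (φ * d) ≤
          3 * (X : ℝ) ^ ε * (1 / X) + (2 * C * (X : ℝ) ^ ε * (1 / X) +
            2 * C * D * (X : ℝ) ^ ε * (Sg / (X : ℝ) ^ (m + 1))) := by linarith
      _ ≤ (3 + 2 * C + 2 * C * D) * (X : ℝ) ^ ε * (1 / X + Sg / (X : ℝ) ^ (m + 1)) := by nlinarith

end Pool.Agent.V5helper26.ML
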