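import Mathlib
import Pool.Agent.V5helper26.ML.Tb

/-!
# A power saving for the iterated means
-/

set_option autoImplicit false

namespace Pool.Agent.V5helper26.ML

open Finset Filter Topology
open Pool.Agent.H807R2.Dav (ee norm_ee ee_add ee_zero KK KK_nonneg KK_neg KK_le geo_bound vino)

/-- `φ` is not very near to rational numbers with denominators at most `X ^ σ` -/
def Fit (σ : ℝ) (m X : ℕ) (φ : ℝ) : Prop :=
  ∀ t : ℕ, 1 ≤ t → (t : ℝ) ≤ (X : ℝ) ^ σ → ∀ p : ℤ, (X : ℝ) ^ (σ - (m + 1)) ≤ |t * φ - p|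

lemma min_avg (σ : ℝ) (hσ : 0 < σ) (hσ1 : σ ≤ 1) (m X : ℕ) (hm : 1 ≤ m) (hX : 1 ≤ X) (φ : ℝ)
    (h : Fit σ m X φ) :
    (∑ n ∈ Icc 1 (X ^ m), Tm X 0 (φ * n)) / (X : ℝ) ^ m ≤
      (X : ℝ) ^ (-σ) * (84 + 6 * ((m + 1) * Real.log X)) := by
  have hX1 : (1 : ℝ) ≤ X := by exact_mod_cast hX
  have hX0 : (0 : ℝ) < X := by linarith
  have hlogX : 0 ≤ Real.log X := Real.log_nonneg hX1
  set N : ℕ := X ^ m with hN
  have hN0 : (0 : ℝ) < N := by rw [hN]; positivity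
  have hNr : (N : ℝ) = (X : ℝ) ^ m := by rw [hN]; push_cast; rfl
  set Q : ℝ := (X : ℝ) ^ ((m : ℝ) + 1 - σ) with hQ
  have hm1 : (1 : ℝ) ≤ m := by exact_mod_cast hm
  have hQ1 : 1 ≤ Q := Real.one_le_rpow hX1 (by linarith)
  have hQ0 : 0 < Q := by linarith
  set n0 : ℕ := ⌊Q⌋₊ with hn0
  have hn01 : 1 ≤ n0 := by
    rw [hn0, Nat.one_le_floor_iff]
    exact hQ1
  have hnle : (n0 : ℝ) ≤ Q := Nat.floor_le hQ0.le
  have hnlt : Q < n0 + 1 := Nat.lt_floor_add_one Q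
  obtain ⟨ρ, hρ1, hρ2⟩ := Real.exists_rat_abs_sub_le_and_den_le φ (n := n0) (by omega)
  obtain ⟨q, hq⟩ : ∃ q : ℕ, q = ρ.den := ⟨_, rfl⟩
  have hρe : (ρ : ℝ) = (ρ.num : ℝ) / q := by
    rw [hq]
    exact Rat.cast_def ρ
  rw [← hq, hρe] at hρ1
  rw [← hq] at hρ2
  have hq1 : 1 ≤ q := by rw [hq]; exact ρ.den_pos
  have hqr : (1 : ℝ) ≤ q := by exact_mod_cast hq1
  have hq0 : (0 : ℝ) < q := by linarith
  have hn0' : (0 : ℝ) < (n0 : ℝ) + 1 := by positivity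
  have hqn : (q : ℝ) ≤ n0 := by exact_mod_cast hρ2
  have hQinv : 1 / Q = (X : ℝ) ^ (σ - (m + 1)) := by
    rw [hQ, one_div, ← Real.rpow_neg hX0.le]
    congr 1
    ring
  have hqσ : (X : ℝ) ^ σ < q := by
    by_contra hcon
    push Not at hcon
    have h1 := h q hq1 hcon ρ.num
    have h2 : |(q : ℝ) * φ - ρ.num| = q * |φ - ρ.num / q| := by
      rw [← abs_of_pos hq0, ← abs_mul, abs_of_pos hq0]
      congr 1
      field_simp
    have h3 : (q : ℝ) * |φ - ρ.num / q| ≤ 1 / (n0 + 1) := by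
      calc (q : ℝ) * |φ - ρ.num / q| ≤ q * (1 / ((n0 + 1) * q)) :=
            mul_le_mul_of_nonneg_left hρ1 hq0.le
        _ = 1 / (n0 + 1) := by field_simp
    have h4 : 1 / ((n0 : ℝ) + 1) < 1 / Q := one_div_lt_one_div_of_lt hQ0 hnlt
    rw [h2, ← hQinv] at h1
    linarith
  have hcop : IsCoprime ρ.num (q : ℤ) := by
    rw [Int.isCoprime_iff_gcd_eq_one, hq]
    have := ρ.reduced
    simpa [Int.gcd] using this
  have hγ : |φ - ρ.num / q| ≤ 1 / (q : ℝ) ^ 2 := by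
    refine hρ1.trans ?_
    apply one_div_le_one_div_of_le (by positivity)
    nlinarith
  have hv := vino hq1 hcop hγ (M := (X : ℝ)) hX0.le φ N
  have hsum : ∑ n ∈ Icc 1 N, Tm X 0 (φ * n) = (∑ j ∈ range N, KK X (φ + j * φ)) / X := by
    have h1 : ∑ n ∈ Icc 1 N, Tm X 0 (φ * n) = ∑ j ∈ range N, Tm X 0 (φ * ((j + 1 : ℕ) : ℝ)) := by
      rw [range_eq_Ico, sum_Ico_add' (fun n : ℕ => Tm X 0 (φ * (n : ℝ))) 0 N 1]
      refine sum_congr ?_ fun _ _ => rfl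
      ext n
      simp only [mem_Icc, mem_Ico]
      omega
    rw [h1, sum_div]
    refine sum_congr rfl fun j _ => ?_
    unfold Tm
    congr 2
    push_cast
    ring
  rw [hsum, ← hNr]
  have hlogq0 : 0 ≤ Real.log q := Real.log_nonneg hqr
  have hlogq : Real.log q ≤ (m + 1) * Real.log X := by
    have h1 : (q : ℝ) ≤ (X : ℝ) ^ ((m : ℝ) + 1) := by
      refine (hqn.trans hnle).trans ?_
      exact Real.rpow_le_rpow_of_exponent_le hX1 (by linarith)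
    have h2 := Real.log_le_log hq0 h1
    rwa [Real.log_rpow hX0] at h2
  rw [div_div, div_le_iff₀ (by positivity)]
  refine hv.trans ?_
  set Z : ℝ := (X : ℝ) ^ (-σ) with hZ
  have hZ0 : 0 < Z := by positivity
  set l : ℝ := (m + 1) * Real.log X with hl
  have hl0 : 0 ≤ l := hlogq0.trans hlogq
  -- the four terms
  have t1 : (N : ℝ) / q * X ≤ Z * (X * N) := by
    have h1 : 1 / (q : ℝ) ≤ Z := by
      rw [hZ, Real.rpow_neg hX0.le, one_div]
      exact inv_anti₀ (by positivity) hqσ.le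
    calc (N : ℝ) / q * X = 1 / q * (X * N) := by ring
      _ ≤ _ := mul_le_mul_of_nonneg_right h1 (by positivity)
  have hZX : 1 ≤ Z * X := by
    have : Z * X = (X : ℝ) ^ (1 - σ) := by
      rw [hZ]
      nth_rw 2 [← Real.rpow_one (X : ℝ)]
      rw [← Real.rpow_add hX0]
      congr 1
      ring
    rw [this]
    exact Real.one_le_rpow hX1 (by linarith)
  have hXN : (X : ℝ) ≤ N := by
    rw [hNr]
    calc (X : ℝ) = (X : ℝ) ^ 1 := (pow_one _).symm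
      _ ≤ _ := pow_le_pow_right₀ hX1 hm
  have t2 : (X : ℝ) ≤ Z * (X * N) := by
    have h1 : 1 ≤ Z * N := hZX.trans (mul_le_mul_of_nonneg_left hXN hZ0.le)
    calc (X : ℝ) = 1 * X := (one_mul _).symm
      _ ≤ (Z * N) * X := mul_le_mul_of_nonneg_right h1 hX0.le
      _ = _ := by ring
  have t3 : (N : ℝ) ≤ Z * (X * N) := by
    calc (N : ℝ) = 1 * N := (one_mul _).symm
      _ ≤ (Z * X) * N := mul_le_mul_of_nonneg_right hZX hN0.le
      _ = _ := by ring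
  have t4 : (q : ℝ) ≤ Z * (X * N) := by
    refine (hqn.trans hnle).trans (le_of_eq ?_)
    rw [hQ, hZ, hNr, ← pow_succ', ← Real.rpow_natCast, ← Real.rpow_add hX0]
    congr 1
    push_cast
    ring
  have h1 : ((N : ℝ) / q + 1) * (39 * X + 3 * q * (1 + Real.log q)) =
      39 * (N / q * X) + 39 * X + (3 * N + 3 * q) * (1 + Real.log q) := by
    field_simp
  rw [h1]
  have h2 : (3 * (N : ℝ) + 3 * q) * (1 + Real.log q) ≤ (6 * (Z * (X * N))) * (1 + l) := by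
    apply mul_le_mul (by linarith) (by linarith) (by linarith) (by positivity)
  have h3 : 0 ≤ Z * (X * N) := by positivity
  nlinarith

lemma ev_log (a : ℝ) (ha : 0 < a) (B : ℝ) : ∀ᶠ X : ℕ in atTop, B * Real.log X ≤ (X : ℝ) ^ a := by
  obtain ⟨b, hb⟩ : ∃ b : ℝ, b = |B| + 1 := ⟨_, rfl⟩
  have hb0 : 0 < b := by rw [hb]; positivity
  have hBb : B ≤ b := by rw [hb]; linarith [le_abs_self B]
  have h1 := (isLittleO_log_rpow_atTop ha).def (show (0 : ℝ) < 1 / b by positivity)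
  filter_upwards [tendsto_natCast_atTop_atTop.eventually h1, eventually_ge_atTop 1] with X hX hX1
  have h2 : (1 : ℝ) ≤ X := by exact_mod_cast hX1
  rw [Real.norm_eq_abs, Real.norm_eq_abs, abs_of_nonneg (Real.log_nonneg h2),
    abs_of_nonneg (by positivity), one_div, inv_mul_eq_div, le_div_iff₀ hb0] at hX
  have h3 := mul_le_mul_of_nonneg_right hBb (Real.log_nonneg h2)
  linarith

lemma ev_const (a : ℝ) (ha : 0 < a) (B : ℝ) : ∀ᶠ X : ℕ in atTop, B ≤ (X : ℝ) ^ a :=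
  ((tendsto_rpow_atTop ha).comp tendsto_natCast_atTop_atTop).eventually_ge_atTop B

theorem Tm_small (σ : ℝ) (hσ : 0 < σ) (hσ1 : σ ≤ 1) (m : ℕ) (hm : 1 ≤ m) :
    ∀ᶠ X : ℕ in atTop, ∀ φ : ℝ, Fit σ m X φ → Tm X m φ ≤ (X : ℝ) ^ (-(σ / 2)) := by
  obtain ⟨C, hC1, hC⟩ := unroll m (σ / 8) (by positivity)
  filter_upwards [ev_log (σ / 8) (by positivity) (6 * ((m : ℝ) + 1)), ev_const (σ / 8) (by positivity) 85,
    ev_const (σ / 8) (by positivity) (2 * C), eventually_ge_atTop 1] with X h1 h2 h3 hX φ hφ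
  have hX1 : (1 : ℝ) ≤ X := by exact_mod_cast hX
  have hX0 : (0 : ℝ) < X := by linarith
  have h4 := hC X hX φ
  have h5 := min_avg σ hσ hσ1 m X hm hX φ hφ
  have h6 : (1 : ℝ) / X ≤ (X : ℝ) ^ (-σ) := by
    rw [one_div, ← Real.rpow_neg_one]
    exact Real.rpow_le_rpow_of_exponent_le hX1 (by linarith)
  have hZ0 : 0 < (X : ℝ) ^ (-σ) := by positivity
  calc Tm X m φ ≤ C * (X : ℝ) ^ (σ / 8) *
        (1 / X + (∑ n ∈ Icc 1 (X ^ m), Tm X 0 (φ * n)) / (X : ℝ) ^ m) := h4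
    _ ≤ C * (X : ℝ) ^ (σ / 8) * (2 * (X : ℝ) ^ (-σ) * (X : ℝ) ^ (σ / 8)) := by
        apply mul_le_mul_of_nonneg_left _ (by positivity)
        have h7 : 84 + 6 * (((m : ℝ) + 1) * Real.log X) ≤ 2 * (X : ℝ) ^ (σ / 8) - 1 := by
          have : 6 * (((m : ℝ) + 1) * Real.log X) = 6 * ((m : ℝ) + 1) * Real.log X := by ring
          rw [this]
          linarith
        have h8 := mul_le_mul_of_nonneg_left h7 hZ0.le
        nlinarith
    _ = (2 * C) * ((X : ℝ) ^ (σ / 8) * (X : ℝ) ^ (-σ) * (X : ℝ) ^ (σ / 8)) := by ring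
    _ ≤ (X : ℝ) ^ (σ / 8) * ((X : ℝ) ^ (σ / 8) * (X : ℝ) ^ (-σ) * (X : ℝ) ^ (σ / 8)) :=
        mul_le_mul_of_nonneg_right h3 (by positivity)
    _ = (X : ℝ) ^ (-(5 * σ / 8)) := by
        rw [← Real.rpow_add hX0, ← Real.rpow_add hX0, ← Real.rpow_add hX0]
        congr 1
        ring
    _ ≤ _ := Real.rpow_le_rpow_of_exponent_le hX1 (by linarith)

end Pool.Agent.V5helper26.ML
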