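import Mathlib
import Pool.Agent.V5helper26.ML.Min

/-!
# The exponential sums over relations between fewer variables
-/

set_option autoImplicit false

namespace Pool.Agent.V5helper26.ML

open Finset Filter Topology
open Pool.Agent.H807R2.Dav (ee norm_ee ee_add ee_zero)

lemma ee_sum {ι : Type*} (s : Finset ι) (f : ι → ℝ) : ee (∑ i ∈ s, f i) = ∏ i ∈ s, ee (f i) := by
  classical
  induction s using Finset.induction_on with
  | empty => simp [ee_zero]
  | insert a s ha ih => rw [sum_insert ha, prod_insert ha, ee_add, ih]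

/-- `α` is not very near to rational numbers with denominators at most `X ^ ε`: `m` variables -/
def Apart (ε : ℝ) (m X : ℕ) (α : ℝ) : Prop :=
  ∀ t : ℕ, 1 ≤ t → (t : ℝ) ≤ (X : ℝ) ^ ε → ∀ p : ℤ, (X : ℝ) ^ (ε - m) ≤ |t * α - p|

lemma Apart.fit {ε : ℝ} {m X : ℕ} {α : ℝ} (hX : 1 ≤ X) (h : Apart ε (m + 1) X α) (q : ℕ)
    (hq : 1 ≤ q) (hqX : (q : ℝ) ≤ (X : ℝ) ^ (ε / 2)) (g : ℤ) (hg : g ≠ 0)
    (hgX : |(g : ℝ)| ≤ (X : ℝ) ^ (ε / 2)) : Fit (ε / 2) m X (g * α / q) := by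
  have hX0 : (0 : ℝ) < X := by exact_mod_cast hX
  have hq0 : (0 : ℝ) < q := by exact_mod_cast hq
  intro t ht htX p
  obtain ⟨n, s, hn, hs, hsg⟩ : ∃ (n : ℕ) (s : ℤ), 1 ≤ n ∧ (s = 1 ∨ s = -1) ∧ g = s * n := by
    refine ⟨g.natAbs, ?_⟩
    rcases le_total 0 g with h0 | h0
    · exact ⟨1, Int.natAbs_pos.mpr hg, Or.inl rfl, by rw [Int.natAbs_of_nonneg h0, one_mul]⟩
    · exact ⟨-1, Int.natAbs_pos.mpr hg, Or.inr rfl, by rw [Int.ofNat_natAbs_of_nonpos h0]; ring⟩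
  have hsgR : (g : ℝ) = (s : ℝ) * (n : ℝ) := by
    rw [hsg, Int.cast_mul, Int.cast_natCast]
  have hs2 : |(s : ℝ)| = 1 := by
    rcases hs with rfl | rfl <;> simp
  have hs1 : (s : ℝ) * s = 1 := by
    rcases hs with rfl | rfl <;> simp
  have hgc : |(g : ℝ)| = (n : ℝ) := by
    rw [hsgR, abs_mul, hs2, one_mul, abs_of_nonneg (Nat.cast_nonneg n)]
  rw [hgc] at hgX
  have hT : ((t * n : ℕ) : ℝ) ≤ (X : ℝ) ^ ε := by
    rw [Nat.cast_mul]
    calc (t : ℝ) * (n : ℝ) ≤ (X : ℝ) ^ (ε / 2) * (X : ℝ) ^ (ε / 2) :=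
          mul_le_mul htX hgX (Nat.cast_nonneg n) (by positivity)
      _ = (X : ℝ) ^ ε := by
          rw [← Real.rpow_add hX0]
          congr 1
          ring
  have h1 := h (t * n) (Nat.mul_pos ht hn) hT (s * p * q)
  have h2 : ((t * n : ℕ) : ℝ) * α - ((s * p * q : ℤ) : ℝ) =
      (s : ℝ) * q * (t * (g * α / q) - p) := by
    rw [hsgR]
    push_cast
    have h5 : (s : ℝ) * q * (t * (s * n * α / q) - p) =
        ((s : ℝ) * s) * (t * n * α) * (q / q) - s * p * q := by ring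
    rw [h5, hs1, div_self hq0.ne']
    ring
  rw [h2, abs_mul, abs_mul] at h1
  rw [hs2, one_mul, abs_of_pos hq0] at h1
  have h3 : (X : ℝ) ^ (ε / 2 - (m + 1)) * (X : ℝ) ^ (ε / 2) ≤
      |t * (g * α / q) - p| * (X : ℝ) ^ (ε / 2) := by
    calc (X : ℝ) ^ (ε / 2 - (m + 1)) * (X : ℝ) ^ (ε / 2) = (X : ℝ) ^ (ε - ((m + 1 : ℕ) : ℝ)) := by
          rw [← Real.rpow_add hX0]
          congr 1
          push_cast
          ring
      _ ≤ (q : ℝ) * |t * (g * α / q) - p| := h1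
      _ ≤ (X : ℝ) ^ (ε / 2) * |t * (g * α / q) - p| :=
          mul_le_mul_of_nonneg_right hqX (abs_nonneg _)
      _ = _ := mul_comm _ _
  exact le_of_mul_le_mul_right h3 (by positivity)

lemma depends_update {k : ℕ} {β : Type*} {f : (Fin k → ℕ) → β} {J : Finset (Fin k)}
    (h : DependsOn f (J : Set (Fin k))) {c : Fin k} (hc : c ∉ J) (a : Fin k → ℕ) (x : ℕ) :
    f (Function.update a c x) = f a := by
  apply h
  intro i hi
  rw [Function.update_of_ne]
  rintro rfl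
  exact hc hi

/-- The exponential sums. -/
theorem expsum {k r : ℕ} (I : Fin r → Finset (Fin k)) (hI : Function.Injective I)
    (h2 : ∀ j, 2 ≤ (I j).card) (ε : ℝ) (hε : 0 < ε) (hε1 : ε ≤ 1) :
    ∀ᶠ X : ℕ in atTop, ∀ (α : Fin r → ℝ), (∀ j, Apart ε (I j).card X (α j)) →
    ∀ (N : ℕ) (J : Fin N → Finset (Fin k)) (Rel : Fin N → (Fin k → ℕ) → Prop)
      (u : Fin N → Fin r → (Fin k → ℕ) → ℝ),
      (∀ t j, ¬ I j ⊆ J t) → (∀ t, DependsOn (Rel t) (J t : Set (Fin k))) →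
      (∀ t j, DependsOn (u t j) (J t : Set (Fin k))) →
    ∀ q : ℕ, 1 ≤ q → (q : ℝ) ≤ (X : ℝ) ^ (ε / 2) → ∀ h : Fin r → ℤ, h ≠ 0 →
      (∀ j, |(h j : ℝ)| ≤ (X : ℝ) ^ (ε / 2)) → ∀ E : Finset (Fin k → ℕ),
      (∀ a, a ∈ E ↔ a ∈ V k X ∧ ∀ t, Rel t a) →
      ‖∑ a ∈ E, ee (∑ j, (h j : ℝ) * ((α j * ∏ i ∈ I j, (a i : ℝ) + ∑ t, u t j a) / q))‖ ≤
        (X : ℝ) ^ ((k : ℝ) - ε / 2 ^ (k + 1)) := by
  classical
  have hsm : ∀ᶠ X : ℕ in atTop, ∀ m ∈ Icc 1 k, ∀ φ : ℝ, Fit (ε / 2) m X φ →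
      Tm X m φ ≤ (X : ℝ) ^ (-(ε / 2 / 2)) := by
    rw [Filter.eventually_all_finset]
    intro m hm
    rw [mem_Icc] at hm
    exact Tm_small (ε / 2) (by positivity) (by linarith) m hm.1
  filter_upwards [hsm, eventually_ge_atTop 1] with X hT hX
  intro α hα N J Rel u hJ hRel hu q hq hqX h hh hhX E hE
  have hX1 : (1 : ℝ) ≤ X := by exact_mod_cast hX
  have hX0 : (0 : ℝ) < X := by linarith
  have hq0 : (0 : ℝ) < q := by exact_mod_cast hq
  -- the largest monomial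
  obtain ⟨j0, hj0, hmax⟩ : ∃ j0, h j0 ≠ 0 ∧ ∀ j, h j ≠ 0 → (I j).card ≤ (I j0).card := by
    have hne : (univ.filter (fun j => h j ≠ 0)).Nonempty := by
      by_contra hcon
      apply hh
      funext j
      by_contra hj
      exact hcon ⟨j, mem_filter.2 ⟨mem_univ _, hj⟩⟩
    obtain ⟨j0, hj0, hj1⟩ := exists_max_image _ (fun j => (I j).card) hne
    exact ⟨j0, (mem_filter.1 hj0).2, fun j hj => hj1 j (mem_filter.2 ⟨mem_univ _, hj⟩)⟩
  have hI0ne : (I j0).Nonempty := by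
    rw [← card_pos]
    have := h2 j0
    omega
  -- the missing coordinates
  have hc1 : ∀ t, ∃ c, c ∈ I j0 ∧ c ∉ J t := fun t => not_subset.1 (hJ t j0)
  choose c1 hc1a hc1b using hc1
  have hc2 : ∀ j, ∃ c, c ∈ I j0 ∧ (j ≠ j0 → h j ≠ 0 → c ∉ I j) := by
    intro j
    by_cases hj : j ≠ j0 ∧ h j ≠ 0
    · have h3 : ¬ I j0 ⊆ I j := by
        intro hsub
        have h4 := eq_of_subset_of_card_le hsub (hmax j hj.2)
        exact hj.1 (hI h4.symm)
      obtain ⟨c, hc, hc'⟩ := not_subset.1 h3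
      exact ⟨c, hc, fun _ _ => hc'⟩
    · obtain ⟨c, hc⟩ := hI0ne
      exact ⟨c, hc, fun h3 h4 => absurd ⟨h3, h4⟩ hj⟩
  choose c2 hc2a hc2b using hc2
  -- the factors
  set F1 : Fin N → (Fin k → ℕ) → ℂ := fun t a =>
    (if Rel t a then 1 else 0) * ee (∑ j, (h j : ℝ) * (u t j a / q)) with hF1
  set F2 : Fin r → (Fin k → ℕ) → ℂ := fun j a =>
    ee ((h j : ℝ) * (α j * (∏ i ∈ I j, (a i : ℝ)) / q)) with hF2
  set b : Fin k → (Fin k → ℕ) → ℂ := fun i a =>
    (∏ t ∈ univ.filter (fun t => c1 t = i), F1 t a) *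
      ∏ j ∈ (univ.erase j0).filter (fun j => c2 j = i), F2 j a with hb
  have hF1n : ∀ t a, ‖F1 t a‖ ≤ 1 := by
    intro t a
    simp only [hF1]
    rw [norm_mul, norm_ee, mul_one]
    split_ifs <;> simp
  have hF2n : ∀ j a, ‖F2 j a‖ ≤ 1 := by
    intro j a
    simp only [hF2]
    rw [norm_ee]
  have hF1u : ∀ t a x, F1 t (Function.update a (c1 t) x) = F1 t a := by
    intro t a x
    simp only [hF1]
    rw [depends_update (hRel t) (hc1b t)]
    congr 2
    refine sum_congr rfl fun j _ => ?_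
    rw [depends_update (hu t j) (hc1b t)]
  have hF2u : ∀ j a x, j ≠ j0 → F2 j (Function.update a (c2 j) x) = F2 j a := by
    intro j a x hj
    simp only [hF2]
    by_cases h0 : h j = 0
    · rw [h0]
      simp
    · congr 4
      refine prod_congr rfl fun i hi => ?_
      rw [Function.update_of_ne]
      rintro rfl
      exact hc2b j hj h0 hi
  have hbox := box X k hX ((I j0).card - 1) (I j0) (by have := h2 j0; omega)
    ((h j0 : ℝ) * α j0 / q) b (by
      intro i _ a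
      simp only [hb]
      rw [norm_mul, norm_prod, norm_prod]
      exact mul_le_one₀ (prod_le_one (fun _ _ => norm_nonneg _) fun t _ => hF1n t a)
        (prod_nonneg fun _ _ => norm_nonneg _)
        (prod_le_one (fun _ _ => norm_nonneg _) fun j _ => hF2n j a)) (by
      intro i _ a x
      simp only [hb]
      congr 1
      · refine prod_congr rfl fun t ht => ?_
        rw [← (mem_filter.1 ht).2, hF1u]
      · refine prod_congr rfl fun j hj => ?_
        rw [mem_filter, mem_erase] at hj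
        rw [← hj.2, hF2u j a x hj.1.1])
  -- the sum
  have hsum : ∑ a ∈ E, ee (∑ j, (h j : ℝ) * ((α j * ∏ i ∈ I j, (a i : ℝ) + ∑ t, u t j a) / q)) =
      ∑ a ∈ V k X, ee ((h j0 : ℝ) * α j0 / q * ∏ i ∈ I j0, (a i : ℝ)) * ∏ i ∈ I j0, b i a := by
    have hEf : E = (V k X).filter (fun a => ∀ t, Rel t a) := by
      ext a
      rw [hE, mem_filter]
    rw [hEf, sum_filter]
    refine sum_congr rfl fun a _ => ?_
    have hprod : ∏ i ∈ I j0, b i a = (∏ t, F1 t a) * ∏ j ∈ univ.erase j0, F2 j a := by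
      simp only [hb]
      rw [prod_mul_distrib]
      congr 1
      · exact prod_fiberwise_of_maps_to (fun t _ => hc1a t) _
      · exact prod_fiberwise_of_maps_to (fun j _ => hc2a j) _
    rw [hprod]
    have hF10 : ∏ t, F1 t a = (if ∀ t, Rel t a then 1 else 0) *
        ee (∑ t, ∑ j, (h j : ℝ) * (u t j a / q)) := by
      simp only [hF1]
      rw [prod_mul_distrib]
      congr 1
      · rw [prod_ite_zero]
        simp
      · rw [ee_sum]
    have hF20 : ee ((h j0 : ℝ) * α j0 / q * ∏ i ∈ I j0, (a i : ℝ)) *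
        ∏ j ∈ univ.erase j0, F2 j a =
        ee (∑ j, (h j : ℝ) * (α j * (∏ i ∈ I j, (a i : ℝ)) / q)) := by
      rw [ee_sum, ← mul_prod_erase univ _ (mem_univ j0)]
      congr 2
      ring
    rw [hF10]
    split_ifs with hR
    · rw [one_mul, mul_left_comm, hF20, ← ee_add]
      congr 1
      rw [sum_comm, ← sum_add_distrib]
      refine sum_congr rfl fun j _ => ?_
      rw [← mul_sum, ← sum_div]
      ring
    · ring
  rw [hsum]
  set m : ℕ := (I j0).card - 1 with hm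
  have hmc : (I j0).card = m + 1 := by have := h2 j0; omega
  have hm1 : 1 ≤ m := by have := h2 j0; omega
  have hmk : m + 1 ≤ k := by
    rw [← hmc]
    exact (card_le_univ _).trans (by simp)
  have hfit : Fit (ε / 2) m X ((h j0 : ℝ) * α j0 / q) := by
    have h3 := hα j0
    rw [hmc] at h3
    exact h3.fit hX q hq hqX (h j0) hj0 (hhX j0)
  have hTm := hbox.trans (hT m (mem_Icc.2 ⟨hm1, by omega⟩) _ hfit)
  set S : ℝ := ‖∑ a ∈ V k X, ee ((h j0 : ℝ) * α j0 / q * ∏ i ∈ I j0, (a i : ℝ)) *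
    ∏ i ∈ I j0, b i a‖ with hS
  have hXk : (0 : ℝ) < (X : ℝ) ^ k := by positivity
  have hS0 : 0 ≤ S / (X : ℝ) ^ k := div_nonneg (norm_nonneg _) hXk.le
  have h3 : S / (X : ℝ) ^ k ≤ (X : ℝ) ^ (-(ε / 2 ^ (k + 1))) := by
    by_contra hcon
    push Not at hcon
    have h4 : ((X : ℝ) ^ (-(ε / 2 ^ (k + 1)))) ^ 2 ^ m < (S / (X : ℝ) ^ k) ^ 2 ^ m :=
      pow_lt_pow_left₀ hcon (by positivity) (by positivity)
    have h5 : (X : ℝ) ^ (-(ε / 2 / 2)) ≤ ((X : ℝ) ^ (-(ε / 2 ^ (k + 1)))) ^ 2 ^ m := by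
      rw [← Real.rpow_natCast, ← Real.rpow_mul hX0.le]
      apply Real.rpow_le_rpow_of_exponent_le hX1
      push_cast
      have h6 : (2 : ℝ) ^ m * 4 ≤ 2 ^ (k + 1) := by
        calc (2 : ℝ) ^ m * 4 = 2 ^ (m + 2) := by rw [pow_add]; norm_num
          _ ≤ 2 ^ (k + 1) := pow_le_pow_right₀ (by norm_num) (by omega)
      have h7 : ε / 2 ^ (k + 1) * 2 ^ m ≤ ε / 2 / 2 := by
        rw [div_mul_eq_mul_div, div_le_iff₀ (by positivity)]
        nlinarith
      linarith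
    linarith
  rw [div_le_iff₀ hXk] at h3
  refine h3.trans (le_of_eq ?_)
  rw [← Real.rpow_natCast (X : ℝ) k, ← Real.rpow_add hX0]
  congr 1
  ring

end Pool.Agent.V5helper26.ML
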