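import Mathlib
import Pool.Agent.V5helper26.ML.Exp
import Pool.Agent.V5helper26.PM.Abs
import Pool.Agent.Y961.JR.ScaledJ

/-!
# Record prime gaps around products over subsets, uniform and fixed versions
-/

set_option autoImplicit false

namespace Pool.Agent.V5helper26.ML

open Finset Filter Topology
open Pool.Agent.W147.PS (ff)
open Pool.Agent.H469R2.NK (e norm_e)
open Pool.Agent.H807R2.Dav (ee)

/-- The uniform theorem. -/
theorem joint {k r : ℕ} (hr : 1 ≤ r) (I : Fin r → Finset (Fin k)) (hI : Function.Injective I)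
    (h2 : ∀ j, 2 ≤ (I j).card) (ε ρ : ℝ) (hε : 0 < ε) (hε1 : ε ≤ 1) (hρ : 0 < ρ) :
    ∃ κ : ℝ, 0 < κ ∧ ∀ᶠ X : ℕ in atTop, ∀ (α : Fin r → ℝ), (∀ j, Apart ε (I j).card X (α j)) →
    ∀ (N : ℕ) (J : Fin N → Finset (Fin k)) (Rel : Fin N → (Fin k → ℕ) → Prop)
      (u : Fin N → Fin r → (Fin k → ℕ) → ℝ),
      (∀ t j, ¬ I j ⊆ J t) → (∀ t, DependsOn (Rel t) (J t : Set (Fin k))) →
      (∀ t j, DependsOn (u t j) (J t : Set (Fin k))) →
    ∀ E : Finset (Fin k → ℕ), (∀ a, a ∈ E ↔ a ∈ V k X ∧ ∀ t, Rel t a) →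
      (X : ℝ) ^ ((k : ℝ) - ε / 2 ^ (k + 2)) ≤ E.card →
      (∀ a ∈ E, ∀ j, (X : ℝ) ^ ε ≤ α j * ∏ i ∈ I j, (a i : ℝ) + ∑ t, u t j a) →
      ∃ S : Finset (Fin k → ℕ), S ⊆ E ∧ (E.card : ℝ) * (X : ℝ) ^ (-ρ) ≤ S.card ∧
        ∀ a ∈ S, ∀ j, ∀ q : ℕ, q.Prime →
          κ * ff X < |(q : ℝ) - (α j * ∏ i ∈ I j, (a i : ℝ) + ∑ t, u t j a)| := by
  classical
  obtain ⟨η, hη0, hη1, hη2, hη3, hη4⟩ : ∃ η : ℝ, 0 < η ∧ η ≤ 1 ∧ η ≤ ε / 2 ∧
      2 * η ≤ ε / 2 ^ (k + 2) ∧ 2 * η ≤ ρ := by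
    have h8 : (2 : ℝ) ≤ 2 ^ (k + 3) := by
      calc (2 : ℝ) = 2 ^ 1 := by norm_num
        _ ≤ 2 ^ (k + 3) := pow_le_pow_right₀ (by norm_num) (by omega)
    have h9 : ε / 2 ^ (k + 3) ≤ ε / 2 := div_le_div_of_nonneg_left hε.le (by norm_num) h8
    refine ⟨min (ε / 2 ^ (k + 3)) (ρ / 2), lt_min (by positivity) (by positivity), ?_, ?_, ?_, ?_⟩
    · exact (min_le_left _ _).trans (h9.trans (by linarith))
    · exact (min_le_left _ _).trans h9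
    · have h10 : ε / 2 ^ (k + 2) = 2 * (ε / 2 ^ (k + 3)) := by
        rw [show k + 3 = (k + 2) + 1 by ring, pow_succ (2 : ℝ) (k + 2)]
        field_simp
      rw [h10]
      exact mul_le_mul_of_nonneg_left (min_le_left _ _) (by norm_num)
    · linarith [min_le_right (ε / 2 ^ (k + 3)) (ρ / 2)]
  obtain ⟨κ, hκ, hcrit⟩ := Pool.Agent.Y961.JR.crit_scaledJ r hr η hη0 hη1
  refine ⟨κ, hκ, ?_⟩
  filter_upwards [tendsto_natCast_atTop_atTop.eventually hcrit, expsum I hI h2 ε hε hε1,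
    ev_const η hη0 4, eventually_ge_atTop 1] with X hc hexp h4 hX
  intro α hα N J Rel u hJ hRel hu E hE hEc hsz
  have hX1 : (1 : ℝ) ≤ X := by exact_mod_cast hX
  have hX0 : (0 : ℝ) < X := by linarith
  have hmono : ∀ x y : ℝ, x ≤ y → (X : ℝ) ^ x ≤ (X : ℝ) ^ y := fun x y h =>
    Real.rpow_le_rpow_of_exponent_le hX1 h
  set v : (Fin k → ℕ) → Fin r → ℝ :=
    fun a j => α j * ∏ i ∈ I j, (a i : ℝ) + ∑ t, u t j a with hv
  set G := E.filter (fun a => ∀ j, ∀ q : ℕ, q.Prime → κ * ff X < |(q : ℝ) - v a j|) with hG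
  refine ⟨G, filter_subset _ _, ?_, fun a ha => (mem_filter.1 ha).2⟩
  by_contra hcon
  push Not at hcon
  set s := E.filter (fun a => ¬ ∀ j, ∀ q : ℕ, q.Prime → κ * ff X < |(q : ℝ) - v a j|) with hs
  have hcard : (G.card : ℝ) + s.card = E.card := by
    exact_mod_cast card_filter_add_card_filter_not (s := E)
      (fun a => ∀ j, ∀ q : ℕ, q.Prime → κ * ff X < |(q : ℝ) - v a j|)
  have hE0 : (0 : ℝ) < E.card := lt_of_lt_of_le (by positivity) hEc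
  have hXη : (0 : ℝ) < (X : ℝ) ^ (-η) := by positivity
  have hη4' : (X : ℝ) ^ (-η) ≤ 1 / 4 := by
    rw [Real.rpow_neg hX0.le, ← one_div]
    exact one_div_le_one_div_of_le (by norm_num) h4
  have hρη : (X : ℝ) ^ (-ρ) ≤ (X : ℝ) ^ (-η) * (X : ℝ) ^ (-η) := by
    rw [← Real.rpow_add hX0]
    apply hmono
    linarith
  have h2η : (X : ℝ) ^ (-η) * (X : ℝ) ^ (-η) ≤ 1 / 4 * (X : ℝ) ^ (-η) :=
    mul_le_mul_of_nonneg_right hη4' hXη.le
  have hs2 : (E.card : ℝ) / 2 ≤ s.card := by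
    have h5 : (E.card : ℝ) * (X : ℝ) ^ (-ρ) ≤ E.card * (1 / 2) := by
      apply mul_le_mul_of_nonneg_left _ hE0.le
      nlinarith
    linarith
  have hs0 : (0 : ℝ) < s.card := by linarith
  obtain ⟨i, hi, hi2⟩ := hc (Fin k → ℕ) s v
    (by rw [← card_pos]; exact_mod_cast hs0)
    (fun i hi j => (hmono _ _ (by linarith)).trans (hsz i (mem_filter.1 hi).1 j)) (by
    intro q hq hqX h hh hhX
    have h5 := hexp α hα N J Rel u hJ hRel hu q hq (hqX.trans (hmono _ _ hη2)) h hh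
      (fun j => (hhX j).trans (hmono _ _ hη2)) E hE
    have h6 : ∑ i ∈ s, e (∑ j, (h j : ℝ) * (v i j / q)) =
        ∑ i ∈ E, ee (∑ j, (h j : ℝ) * (v i j / q)) -
          ∑ i ∈ G, ee (∑ j, (h j : ℝ) * (v i j / q)) := by
      rw [eq_sub_iff_add_eq', hG, hs]
      rw [sum_congr rfl fun i _ => Pool.Agent.V5helper26.PM.e_eq_ee _]
      exact sum_filter_add_sum_filter_not _ _ _
    have h7 : ‖∑ i ∈ G, ee (∑ j, (h j : ℝ) * (v i j / q))‖ ≤ G.card := by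
      refine (norm_sum_le _ _).trans ?_
      rw [sum_congr rfl fun i _ => Pool.Agent.H807R2.Dav.norm_ee _]
      simp
    rw [h6]
    refine (norm_sub_le _ _).trans ?_
    have h8 : (X : ℝ) ^ ((k : ℝ) - ε / 2 ^ (k + 1)) ≤
        E.card * ((X : ℝ) ^ (-η) * (X : ℝ) ^ (-η)) := by
      calc (X : ℝ) ^ ((k : ℝ) - ε / 2 ^ (k + 1)) =
            (X : ℝ) ^ ((k : ℝ) - ε / 2 ^ (k + 2)) * (X : ℝ) ^ (-(ε / 2 ^ (k + 2))) := by
            rw [← Real.rpow_add hX0]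
            congr 1
            rw [show k + 2 = (k + 1) + 1 by ring, pow_succ (2 : ℝ) (k + 1)]
            field_simp
            ring
        _ ≤ E.card * ((X : ℝ) ^ (-η) * (X : ℝ) ^ (-η)) := by
            apply mul_le_mul hEc _ (by positivity) hE0.le
            rw [← Real.rpow_add hX0]
            apply hmono
            linarith
    have h9 : (G.card : ℝ) ≤ E.card * ((X : ℝ) ^ (-η) * (X : ℝ) ^ (-η)) :=
      hcon.le.trans (mul_le_mul_of_nonneg_left hρη hE0.le)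
    have h10 : (E.card : ℝ) * ((X : ℝ) ^ (-η) * (X : ℝ) ^ (-η)) ≤ E.card * (1 / 4 * (X : ℝ) ^ (-η)) :=
      mul_le_mul_of_nonneg_left h2η hE0.le
    have h11 : (E.card : ℝ) * (1 / 4 * (X : ℝ) ^ (-η)) ≤ (2 * s.card) * (1 / 4 * (X : ℝ) ^ (-η)) :=
      mul_le_mul_of_nonneg_right (by linarith) (by positivity)
    linarith)
  exact (mem_filter.1 hi).2 hi2

/-- irrational numbers which are not Liouville numbers -/
lemma apart_fixed {α : ℝ} (h1 : Irrational α) (h2 : ¬ Liouville α) :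
    ∃ ε₀ : ℝ, 0 < ε₀ ∧ ∀ ε : ℝ, 0 < ε → ε ≤ ε₀ → ∀ᶠ X : ℕ in atTop, ∀ m : ℕ, 2 ≤ m →
      Apart ε m X α := by
  unfold Liouville at h2
  push Not at h2
  obtain ⟨n, hn⟩ := h2
  refine ⟨1 / (2 * n + 2), by positivity, ?_⟩
  intro ε hε hε0
  have hεn : ε * (2 * n + 2) ≤ 1 := by
    rwa [le_div_iff₀ (by positivity)] at hε0
  filter_upwards [ev_const (1 / 2) (by norm_num) ((2 : ℝ) ^ n), eventually_ge_atTop 2] with X h3 hX
  intro m hm t ht htX p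
  have hX1 : (1 : ℝ) ≤ X := by exact_mod_cast (by omega : 1 ≤ X)
  have hX0 : (0 : ℝ) < X := by linarith
  have ht0 : (0 : ℝ) < t := by exact_mod_cast ht
  have hε1 : ε ≤ 1 / 2 := by nlinarith [show (0 : ℝ) ≤ ε * n by positivity]
  have hm' : (2 : ℝ) ≤ m := by exact_mod_cast hm
  -- use the denominator `2 t`
  have h4 := hn (2 * p) (2 * t) (by omega)
  have h5 : ((2 * p : ℤ) : ℝ) / ((2 * t : ℤ) : ℝ) = p / t := by
    push_cast
    rw [mul_div_mul_left _ _ (by norm_num : (2 : ℝ) ≠ 0)]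
  have h6 : α ≠ ((2 * p : ℤ) : ℝ) / ((2 * t : ℤ) : ℝ) := by
    rw [h5]
    intro h7
    apply h1
    exact ⟨(p : ℚ) / t, by push_cast; exact h7.symm⟩
  have h7 := h4 h6
  rw [h5] at h7
  have h8 : |(t : ℝ) * α - p| = t * |α - p / t| := by
    rw [← abs_of_pos ht0, ← abs_mul, abs_of_pos ht0]
    congr 1
    field_simp
  rw [h8]
  have h9 : (1 : ℝ) / ((2 * t : ℤ) : ℝ) ^ n ≤ |α - p / t| := h7
  have h10 : (X : ℝ) ^ (ε - m) ≤ (1 : ℝ) / ((2 * t : ℤ) : ℝ) ^ n := by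
    rw [le_div_iff₀ (by positivity)]
    calc (X : ℝ) ^ (ε - m) * ((2 * t : ℤ) : ℝ) ^ n = (X : ℝ) ^ (ε - m) * (2 ^ n * (t : ℝ) ^ n) := by
          push_cast
          rw [mul_pow]
      _ ≤ (X : ℝ) ^ (ε - m) * ((X : ℝ) ^ (1 / 2 : ℝ) * (X : ℝ) ^ (ε * n)) := by
          apply mul_le_mul_of_nonneg_left _ (by positivity)
          apply mul_le_mul h3 _ (by positivity) (by positivity)
          calc (t : ℝ) ^ n ≤ ((X : ℝ) ^ ε) ^ n := pow_le_pow_left₀ ht0.le htX n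
            _ = _ := by rw [← Real.rpow_natCast, ← Real.rpow_mul hX0.le]
      _ = (X : ℝ) ^ (ε - m + (1 / 2 + ε * n)) := by
          rw [← Real.rpow_add hX0, ← Real.rpow_add hX0]
      _ ≤ (X : ℝ) ^ (0 : ℝ) := by
          apply Real.rpow_le_rpow_of_exponent_le hX1
          nlinarith
      _ = 1 := Real.rpow_zero _
  calc (X : ℝ) ^ (ε - m) ≤ |α - p / t| := h10.trans h9
    _ ≤ t * |α - p / t| := by
        apply le_mul_of_one_le_left (abs_nonneg _)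
        exact_mod_cast ht

/-- The theorem for fixed numbers. -/
theorem fixed {k r : ℕ} (hr : 1 ≤ r) (I : Fin r → Finset (Fin k)) (hI : Function.Injective I)
    (h2 : ∀ j, 2 ≤ (I j).card) (α : Fin r → ℝ) (hα : ∀ j, Irrational (α j) ∧ ¬ Liouville (α j))
    (σ ρ : ℝ) (hσ : 0 < σ) (hρ : 0 < ρ) :
    ∃ κ δ : ℝ, 0 < κ ∧ 0 < δ ∧ ∀ᶠ X : ℕ in atTop,
    ∀ (N : ℕ) (J : Fin N → Finset (Fin k)) (Rel : Fin N → (Fin k → ℕ) → Prop)
      (u : Fin N → Fin r → (Fin k → ℕ) → ℝ),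
      (∀ t j, ¬ I j ⊆ J t) → (∀ t, DependsOn (Rel t) (J t : Set (Fin k))) →
      (∀ t j, DependsOn (u t j) (J t : Set (Fin k))) →
    ∀ E : Finset (Fin k → ℕ), (∀ a, a ∈ E ↔ a ∈ V k X ∧ ∀ t, Rel t a) →
      (X : ℝ) ^ ((k : ℝ) - δ) ≤ E.card →
      (∀ a ∈ E, ∀ j, (X : ℝ) ^ σ ≤ α j * ∏ i ∈ I j, (a i : ℝ) + ∑ t, u t j a) →
      ∃ S : Finset (Fin k → ℕ), S ⊆ E ∧ (E.card : ℝ) * (X : ℝ) ^ (-ρ) ≤ S.card ∧
        ∀ a ∈ S, ∀ j, ∀ q : ℕ, q.Prime →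
          κ * ff X < |(q : ℝ) - (α j * ∏ i ∈ I j, (a i : ℝ) + ∑ t, u t j a)| := by
  have h1 : ∀ j, ∃ ε₀ : ℝ, 0 < ε₀ ∧ ∀ ε : ℝ, 0 < ε → ε ≤ ε₀ → ∀ᶠ X : ℕ in atTop, ∀ m : ℕ, 2 ≤ m →
      Apart ε m X (α j) := fun j => apart_fixed (hα j).1 (hα j).2
  choose e0 he0 hap using h1
  have : Nonempty (Fin r) := ⟨⟨0, hr⟩⟩
  obtain ⟨j0, _, hj0⟩ := Finset.exists_min_image (univ : Finset (Fin r)) e0 univ_nonempty
  obtain ⟨ε, hε, hεa, hεb, hεc⟩ : ∃ ε : ℝ, 0 < ε ∧ ε ≤ e0 j0 ∧ ε ≤ 1 ∧ ε ≤ σ :=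
    ⟨min (e0 j0) (min 1 σ), lt_min (he0 j0) (lt_min one_pos hσ), min_le_left _ _,
      (min_le_right _ _).trans (min_le_left _ _), (min_le_right _ _).trans (min_le_right _ _)⟩
  obtain ⟨κ, hκ, hjoint⟩ := joint hr I hI h2 ε ρ hε hεb hρ
  refine ⟨κ, ε / 2 ^ (k + 2), hκ, by positivity, ?_⟩
  have hap' : ∀ᶠ X : ℕ in atTop, ∀ j, ∀ m : ℕ, 2 ≤ m → Apart ε m X (α j) := by
    rw [Filter.eventually_all]
    intro j
    exact hap j ε hε (hεa.trans (hj0 j (mem_univ j)))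
  filter_upwards [hjoint, hap', eventually_ge_atTop 1] with X hJ hA hX
  intro N J Rel u hJ1 hRel hu E hE hEc hsz
  have hX1 : (1 : ℝ) ≤ X := by exact_mod_cast hX
  exact hJ α (fun j => hA j _ (h2 j)) N J Rel u hJ1 hRel hu E hE hEc fun a ha j =>
    (Real.rpow_le_rpow_of_exponent_le hX1 hεc).trans (hsz a ha j)

end Pool.Agent.V5helper26.ML
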